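import Mathlib

set_option autoImplicit false

open Polynomial Filter Topology

namespace Pool.Agent.Lib.MP_045218_nt

/-- A Følner sequence in an additive commutative group `G`: nonempty finite sets `F N` such that
`|(F N + a) ∆ F N| / |F N| → 0` for every `a`. -/
def IsFolner {G : Type*} [AddCommGroup G] (F : ℕ → Finset G) : Prop :=
  (∀ N, (F N).Nonempty) ∧
    ∀ a : G, Tendsto (fun N =>
      ((symmDiff ((fun x => x + a) '' (F N : Set G)) (F N : Set G)).ncard : ℝ) /
        ((F N).card : ℝ)) atTop (𝓝 0)

/-- The upper Banach density of `A`: the supremum over all Følner sequences `F` of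
`limsup |A ∩ F N| / |F N|`. -/
noncomputable def upperBanachDensity {G : Type*} [AddCommGroup G] (A : Set G) : ℝ :=
  sSup {d : ℝ | ∃ F : ℕ → Finset G, IsFolner F ∧
    d = limsup (fun N => ((A ∩ (F N : Set G)).ncard : ℝ) / ((F N).card : ℝ)) atTop}

/-- Condition (i): for every nonzero ideal `I` there is `n` with all `P i (n)` in `I`. -/
def JointlyIntersective {O : Type*} [CommRing O] {k : ℕ} (P : Fin k → O[X]) : Prop :=
  ∀ I : Ideal O, I ≠ ⊥ → ∃ n : O, ∀ i, (P i).eval n ∈ I

/-- Condition (ii): every set of positive upper Banach density contains a configuration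
`{x, x + P 1 (n), …, x + P k (n)}`. -/
def PolySzemeredi {O : Type*} [CommRing O] {k : ℕ} (P : Fin k → O[X]) : Prop :=
  ∀ A : Set O, 0 < upperBanachDensity A → ∃ x n : O, x ∈ A ∧ ∀ i, x + (P i).eval n ∈ A

end Pool.Agent.Lib.MP_045218_nt
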