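import Mathlib
import Pool.Agent.Lib.MP_045218_nt.Defs

section

set_option autoImplicit false

open Polynomial

namespace Pool.Agent.Lib.MP_045218_nt

section Additive

variable {R S : Type*} [CommRing R] [CommRing S]

/-- The additive polynomial map `x ↦ x ^ p - c ^ (p - 1) * x`. -/
def lin (p : ℕ) (c x : R) : R := x ^ p - c ^ (p - 1) * x

theorem map_lin (p : ℕ) (f : R →+* S) (c x : R) : f (lin p c x) = lin p (f c) (f x) := by
  simp [lin]

theorem lin_add (p : ℕ) [Fact p.Prime] [CharP R p] (c x y : R) :
    lin p c (x + y) = lin p c x + lin p c y := by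
  simp only [lin, add_pow_char]
  ring

theorem lin_zero (p : ℕ) [Fact p.Prime] (c : R) : lin p c 0 = 0 := by
  simp [lin, (Fact.out : p.Prime).ne_zero]

theorem lin_sub (p : ℕ) [Fact p.Prime] [CharP R p] (c x y : R) :
    lin p c (x - y) = lin p c x - lin p c y := by
  simp only [lin, sub_pow_char]
  ring

theorem lin_self (p : ℕ) [Fact p.Prime] (c : R) : lin p c c = 0 := by
  have hp := (Fact.out : p.Prime).one_lt
  have : c ^ p = c ^ (p - 1) * c := by
    rw [← pow_succ]; congr 1; omega
  simp [lin, this]

theorem lin_zmod (p : ℕ) [Fact p.Prime] [CharP R p] (c x : R) (k : ℕ) :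
    lin p c ((k : R) * x) = (k : R) * lin p c x := by
  have h : ((k : R)) ^ p = (k : R) := by
    have := map_natCast (frobenius R p) k
    rwa [frobenius_def] at this
  simp only [lin, mul_pow, h]
  ring

/-- The additive map `T` of degree `p ^ 4`. -/
def tmap (p : ℕ) (a b w x : R) : R :=
  let w1 := w ^ p - w
  let b1 := lin p w1 b
  let g := lin p w1 (a - w ^ p * b) - w1 ^ p * b
  let g1 := lin p b1 g
  lin p g1 (lin p b1 (lin p w1 (x ^ p - x)))

/-- The element `h`. -/
def hval (p : ℕ) (b w : R) : R :=
  let w1 := w ^ p - w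
  lin p w1 (w ^ p * b) + w1 ^ p * b

/-- The affine map `x ↦ T x - c`. -/
def pmap (p : ℕ) (a b w x : R) : R :=
  let w1 := w ^ p - w
  let b1 := lin p w1 b
  let g := lin p w1 (a - w ^ p * b) - w1 ^ p * b
  let g1 := lin p b1 g
  lin p g1 (lin p b1 (lin p w1 (x ^ p - x) - hval p b w))

theorem map_pmap (p : ℕ) (f : R →+* S) (a b w x : R) :
    f (pmap p a b w x) = pmap p (f a) (f b) (f w) (f x) := by
  simp [pmap, map_lin, hval]

theorem pmap_sub (p : ℕ) [Fact p.Prime] [CharP R p] (a b w x y : R) :
    pmap p a b w x - pmap p a b w y = tmap p a b w (x - y) := by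
  simp only [pmap, tmap]
  rw [← lin_sub, ← lin_sub, sub_sub_sub_cancel_right, ← lin_sub]
  congr 3
  rw [sub_pow_char]
  ring

theorem tmap_add (p : ℕ) [Fact p.Prime] [CharP R p] (a b w x y : R) :
    tmap p a b w (x + y) = tmap p a b w x + tmap p a b w y := by
  simp only [tmap]
  rw [← lin_add, ← lin_add, ← lin_add]
  congr 3
  rw [add_pow_char]
  ring

theorem tmap_zero (p : ℕ) [Fact p.Prime] (a b w : R) :
    tmap p a b w 0 = 0 := by
  simp [tmap, lin, (Fact.out : p.Prime).ne_zero]

/-- A solution of `n ^ p - n = a + k b` is a root. -/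
theorem pmap_root_one (p : ℕ) [Fact p.Prime] [CharP R p] (a b w n : R) (k : ℕ)
    (hn : n ^ p - n = a + k * b) : pmap p a b w n = 0 := by
  simp only [pmap, hn, hval]
  set w1 := w ^ p - w with hw1
  set b1 := lin p w1 b with hb1
  set g := lin p w1 (a - w ^ p * b) - w1 ^ p * b with hg
  have h1 : lin p w1 (a + k * b) - (lin p w1 (w ^ p * b) + w1 ^ p * b) = g + k * b1 := by
    rw [hg, lin_add, lin_zmod, lin_sub]
    ring
  rw [h1, lin_add, lin_zmod, lin_self, mul_zero, add_zero, lin_self]

/-- If `n ^ p - n = b` then `w * n` is a root. -/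
theorem pmap_root_two (p : ℕ) [Fact p.Prime] [CharP R p] (a b w n : R)
    (hn : n ^ p - n = b) : pmap p a b w (w * n) = 0 := by
  simp only [pmap, hval]
  set w1 := w ^ p - w with hw1
  set b1 := lin p w1 b with hb1
  set g := lin p w1 (a - w ^ p * b) - w1 ^ p * b with hg
  have hnp : n ^ p = n + b := by rw [← hn]; ring
  have h0 : (w * n) ^ p - w * n = w ^ p * b + w1 * n := by
    rw [mul_pow, hnp, hw1]; ring
  have hp := (Fact.out : p.Prime).one_lt
  have hw1p : w1 ^ p = w1 ^ (p - 1) * w1 := by
    rw [← pow_succ]; congr 1; omega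
  have h1 : lin p w1 (w1 * n) = w1 ^ p * b := by
    rw [lin, mul_pow, hnp, hw1p]; ring
  rw [h0, lin_add, h1]
  simp [lin_zero]

end Additive

end Pool.Agent.Lib.MP_045218_nt
end

section

set_option autoImplicit false

open Polynomial Filter Topology

namespace Pool.Agent.Lib.MP_045218_nt

variable {G : Type*} [AddCommGroup G]

theorem ratio_le_one (A : Set G) (F : ℕ → Finset G) (N : ℕ) :
    ((A ∩ (F N : Set G)).ncard : ℝ) / ((F N).card : ℝ) ≤ 1 := by
  apply div_le_one_of_le₀ _ (by positivity)
  have h : (A ∩ (F N : Set G)).ncard ≤ (F N : Set G).ncard :=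
    Set.ncard_le_ncard Set.inter_subset_right (F N).finite_toSet
  rw [Set.ncard_coe_finset] at h
  exact_mod_cast h

theorem ratio_nonneg (A : Set G) (F : ℕ → Finset G) (N : ℕ) :
    0 ≤ ((A ∩ (F N : Set G)).ncard : ℝ) / ((F N).card : ℝ) := by positivity

theorem bddAbove_density (A : Set G) :
    BddAbove {d : ℝ | ∃ F : ℕ → Finset G, IsFolner F ∧
      d = limsup (fun N => ((A ∩ (F N : Set G)).ncard : ℝ) / ((F N).card : ℝ)) atTop} := by
  refine ⟨1, ?_⟩
  rintro d ⟨F, _, rfl⟩
  apply limsup_le_of_le
  · exact IsCoboundedUnder.of_frequently_ge (a := 0)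
      (Frequently.of_forall fun N => ratio_nonneg A F N)
  · exact Eventually.of_forall fun N => ratio_le_one A F N

/-- In a countable vector space over `ZMod p` the kernel of a linear functional has positive upper
Banach density. -/
theorem upperBanachDensity_ker_pos (p : ℕ) [Fact p.Prime] [Module (ZMod p) G] [Countable G]
    (f : G →ₗ[ZMod p] ZMod p) : 0 < upperBanachDensity {x : G | f x = 0} := by
  classical
  have hp := (Fact.out : p.Prime)
  obtain ⟨e, he⟩ := exists_surjective_nat G
  -- the Følner sequence
  let V : ℕ → Submodule (ZMod p) G := fun N => Submodule.span (ZMod p) (e '' (Finset.range (N + 1)))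
  have hVfin : ∀ N, (V N : Set G).Finite := by
    intro N
    have hfg : (V N).FG := Submodule.fg_span ((Finset.range (N + 1)).finite_toSet.image e)
    have : Module.Finite (ZMod p) (V N) := Module.Finite.iff_fg.2 hfg
    have : Finite (V N) := Module.finite_of_finite (ZMod p)
    exact Set.toFinite _
  let F : ℕ → Finset G := fun N => (hVfin N).toFinset
  have hF : ∀ N, (F N : Set G) = (V N : Set G) := fun N => (hVfin N).coe_toFinset
  have hFn : ∀ N, (F N).Nonempty := by
    intro N
    refine ⟨0, ?_⟩
    rw [← Finset.mem_coe, hF]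
    exact (V N).zero_mem
  have hFolner : IsFolner F := by
    refine ⟨hFn, ?_⟩
    intro a
    obtain ⟨k, rfl⟩ := he a
    apply tendsto_const_nhds.congr'
    filter_upwards [eventually_ge_atTop k] with N hN
    have hk : e k ∈ V N := by
      apply Submodule.subset_span
      exact ⟨k, by simp; omega, rfl⟩
    have : (fun x => x + e k) '' (F N : Set G) = (F N : Set G) := by
      rw [hF]
      ext x
      constructor
      · rintro ⟨y, hy, rfl⟩
        exact (V N).add_mem hy hk
      · intro hx
        exact ⟨x - e k, (V N).sub_mem hx hk, by simp⟩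
    rw [this]
    simp
  -- the ratio
  have hratio : ∀ N, (1 : ℝ) / p ≤
      (({x : G | f x = 0} ∩ (F N : Set G)).ncard : ℝ) / ((F N).card : ℝ) := by
    intro N
    have hcardpos : 0 < ((F N).card : ℝ) := by exact_mod_cast (hFn N).card_pos
    rw [div_le_div_iff₀ (by exact_mod_cast hp.pos) hcardpos, one_mul]
    -- fibres
    have h1 : ∀ c : ZMod p, ((F N).filter (fun x => f x = c)).card ≤
        ({x : G | f x = 0} ∩ (F N : Set G)).ncard := by
      intro c
      rcases ((F N).filter (fun x => f x = c)).eq_empty_or_nonempty with h | ⟨x0, hx0⟩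
      · rw [h]; simp
      · rw [Finset.mem_filter] at hx0
        have hx0V : x0 ∈ V N := by
          have := hx0.1
          rw [← Finset.mem_coe, hF] at this
          exact this
        rw [← Set.ncard_coe_finset]
        have hfin : ({x : G | f x = 0} ∩ (F N : Set G)).Finite :=
          (F N).finite_toSet.subset Set.inter_subset_right
        apply Set.ncard_le_ncard_of_injOn (fun x => x - x0) _ _ hfin
        · intro x hx
          rw [Finset.coe_filter] at hx
          obtain ⟨hx1, hx2⟩ := hx
          refine ⟨?_, ?_⟩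
          · simp only [Set.mem_setOf_eq, map_sub, hx2, hx0.2, sub_self]
          · rw [hF]
            rw [← Finset.mem_coe, hF] at hx1
            exact (V N).sub_mem hx1 hx0V
        · intro x _ y _ hxy
          exact sub_left_injective hxy
    have h2 : (F N).card ≤ p * ({x : G | f x = 0} ∩ (F N : Set G)).ncard := by
      have := Finset.card_le_mul_card_image_of_maps_to (s := F N)
        (t := (Finset.univ : Finset (ZMod p))) (f := fun x => f x) (fun x _ => Finset.mem_univ _)
        (({x : G | f x = 0} ∩ (F N : Set G)).ncard) (fun c _ => h1 c)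
      rw [Finset.card_univ, ZMod.card] at this
      rw [mul_comm]
      exact this
    have h3 : ((F N).card : ℝ) ≤ (p : ℝ) * (({x : G | f x = 0} ∩ (F N : Set G)).ncard : ℝ) := by
      exact_mod_cast h2
    linarith
  have hlim : (1 : ℝ) / p ≤ limsup (fun N =>
      (({x : G | f x = 0} ∩ (F N : Set G)).ncard : ℝ) / ((F N).card : ℝ)) atTop := by
    apply le_limsup_of_frequently_le
    · exact Frequently.of_forall hratio
    · exact isBoundedUnder_of ⟨1, fun N => ratio_le_one _ F N⟩
  have hle := le_csSup (bddAbove_density {x : G | f x = 0}) ⟨F, hFolner, rfl⟩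
  have hpos : (0 : ℝ) < 1 / p := by
    have : (0 : ℝ) < p := by exact_mod_cast hp.pos
    positivity
  exact lt_of_lt_of_le hpos (hlim.trans hle)

end Pool.Agent.Lib.MP_045218_nt
end

section

set_option autoImplicit false

open Polynomial

namespace Pool.Agent.Lib.MP_045218_nt

section Field

variable {K : Type*} [Field K] (p : ℕ) [Fact p.Prime] [CharP K p]

/-- Elements fixed by Frobenius are in the prime field. -/
theorem exists_nat_of_pow_eq {u : K} (h : u ^ p = u) : ∃ k : ℕ, u = (k : K) := by
  have h1 := (Subfield.mem_bot_iff_pow_eq_self K p).2 h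
  rw [← ZMod.fieldRange_castHom_eq_bot p] at h1
  obtain ⟨z, hz⟩ := h1
  refine ⟨z.val, ?_⟩
  rw [← hz]
  conv_lhs => rw [← ZMod.natCast_zmod_val z]
  simp

/-- If `lin p c x = 0` then `x` is a multiple of `c` by an element of the prime field. -/
theorem exists_of_lin_eq_zero {c x : K} (h : lin p c x = 0) : ∃ k : ℕ, x = (k : K) * c := by
  have hp := (Fact.out : p.Prime)
  rcases eq_or_ne c 0 with rfl | hc
  · refine ⟨0, ?_⟩
    have : (0 : K) ^ (p - 1) = 0 := zero_pow (by have := hp.one_lt; omega)
    simp only [lin, this, zero_mul, sub_zero] at h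
    simpa using pow_eq_zero_iff hp.ne_zero |>.1 h
  · have hcp : c ^ p = c ^ (p - 1) * c := by
      rw [← pow_succ]; congr 1; have := hp.one_lt; omega
    have h1 : (x / c) ^ p = x / c := by
      rw [div_pow, div_eq_div_iff (pow_ne_zero _ hc) hc, hcp]
      have : x ^ p = c ^ (p - 1) * x := by simpa [lin, sub_eq_zero] using h
      rw [this]; ring
    obtain ⟨k, hk⟩ := exists_nat_of_pow_eq p h1
    exact ⟨k, by rw [← hk]; field_simp⟩

/-- `b` and `a` are independent modulo the image of `n ↦ n ^ p - n`. -/
def Indep (a b : K) : Prop :=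
  ∀ (x y : ℕ) (n : K), n ^ p - n = (x : K) * a + (y : K) * b → (x : K) = 0 ∧ (y : K) = 0

theorem pmap_ne_zero {a b w : K} (hab : Indep p a b) (hw : w ^ p - w ≠ 0) (n : K) :
    pmap p a b w n ≠ 0 := by
  intro h
  have hp := (Fact.out : p.Prime)
  simp only [pmap, hval] at h
  set w1 := w ^ p - w with hw1
  set b1 := lin p w1 b with hb1
  set g := lin p w1 (a - w ^ p * b) - w1 ^ p * b with hg
  obtain ⟨c, hc⟩ := exists_of_lin_eq_zero p h
  rw [← lin_zmod, ← sub_eq_zero, ← lin_sub] at hc
  obtain ⟨c', hc'⟩ := exists_of_lin_eq_zero p hc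
  have hw1p : w1 ^ p = w1 ^ (p - 1) * w1 := by
    rw [← pow_succ]; congr 1; have := hp.one_lt; omega
  -- the equation after removing `L2`
  set m := (n ^ p - n) - w ^ p * b - (c : K) * (a - w ^ p * b) - (c' : K) * b with hm
  have h2 : lin p w1 m = (1 - (c : K)) * (w1 ^ p * b) := by
    rw [hm, lin_sub, lin_sub, lin_sub, lin_zmod, lin_zmod, ← hb1]
    have h3 : lin p w1 (n ^ p - n) =
        (c' : K) * b1 + (c : K) * g + (lin p w1 (w ^ p * b) + w1 ^ p * b) := by
      linear_combination hc'
    rw [h3, hg]
    ring
  have hu : (m / w1) ^ p - m / w1 = (1 - (c : K)) * b := by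
    have h3 : m ^ p - w1 ^ (p - 1) * m = (1 - (c : K)) * (w1 ^ p * b) := by
      simpa [lin] using h2
    have h4 : w1 ^ p ≠ 0 := pow_ne_zero _ hw
    have h5 : m / w1 = (w1 ^ (p - 1) * m) / w1 ^ p := by
      rw [hw1p]; field_simp
    rw [h5]
    rw [← h5, div_pow]
    rw [h5, ← sub_div, h3]
    field_simp
  -- `1 - c` is an element of the prime field
  obtain ⟨e, he⟩ : ∃ e : ℕ, (1 : K) - (c : K) = (e : K) := by
    apply exists_nat_of_pow_eq p
    rw [sub_pow_char, one_pow]
    have := map_natCast (frobenius K p) c
    rw [frobenius_def] at this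
    rw [this]
  have h6 := hab 0 e (m / w1) (by rw [hu, he]; simp)
  have hc1 : (c : K) = 1 := by
    have : (1 : K) - (c : K) = 0 := by rw [he]; exact h6.2
    linear_combination -this
  have h7 : (m / w1) ^ p = m / w1 := by
    have : (m / w1) ^ p - m / w1 = 0 := by rw [hu, hc1]; ring
    linear_combination this
  obtain ⟨f, hf⟩ := exists_nat_of_pow_eq p h7
  have hm1 : m = (f : K) * w1 := by rw [← hf]; field_simp
  have h8 : (n - (f : K) * w) ^ p - (n - (f : K) * w) = ((1 : ℕ) : K) * a + (c' : K) * b := by
    rw [sub_pow_char, mul_pow]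
    have hfp : (f : K) ^ p = (f : K) := by
      have := map_natCast (frobenius K p) f
      rwa [frobenius_def] at this
    rw [hfp]
    have h9 : n ^ p - n = m + w ^ p * b + (c : K) * (a - w ^ p * b) + (c' : K) * b := by
      rw [hm]; ring
    rw [hc1] at h9
    rw [hm1, hw1] at h9
    push_cast
    linear_combination h9
  have h10 := (hab 1 c' _ h8).1
  simp at h10

end Field

end Pool.Agent.Lib.MP_045218_nt
end

section

set_option autoImplicit false

open Polynomial

namespace Pool.Agent.Lib.MP_045218_nt

universe u

/-- Passing to the quotient by a nonzero principal ideal decreases the cardinality. -/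
theorem card_quot_lt {A : Type u} [CommRing A] [Finite A] {e : A} (he : e ≠ 0) :
    Nat.card (A ⧸ Ideal.span {e}) < Nat.card A := by
  classical
  let _ := Fintype.ofFinite A
  let _ := Fintype.ofFinite (A ⧸ Ideal.span {e})
  rw [Nat.card_eq_fintype_card, Nat.card_eq_fintype_card]
  apply Fintype.card_lt_of_surjective_not_injective (Ideal.Quotient.mk (Ideal.span {e}))
    Ideal.Quotient.mk_surjective
  intro hinj
  apply he
  apply hinj
  rw [map_zero, Ideal.Quotient.eq_zero_iff_mem]
  exact Ideal.mem_span_singleton_self e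

/-- The connected case. -/
theorem exists_root_connected (p : ℕ) [Fact p.Prime] {A : Type u} [CommRing A] [Finite A]
    [Nontrivial A] [CharP A p] (hid : ∀ e : A, e * e = e → e = 0 ∨ e = 1) (a b w : A) :
    ∃ n : A, pmap p a b w n = 0 := by
  have hp := (Fact.out : p.Prime)
  -- every element is a unit or nilpotent
  have hun : ∀ x : A, IsUnit x ∨ ∃ k : ℕ, x ^ k = 0 := by
    intro x
    obtain ⟨i, j, hij, hx⟩ : ∃ i j : ℕ, i < j ∧ x ^ i = x ^ j := by
      obtain ⟨i, j, hne, h⟩ := Finite.exists_ne_map_eq_of_infinite (fun k : ℕ => x ^ k)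
      rcases lt_or_gt_of_ne hne with h1 | h1
      · exact ⟨i, j, h1, h⟩
      · exact ⟨j, i, h1, h.symm⟩
    -- `x ^ i = x ^ (i + d)` with `d = j - i > 0`
    obtain ⟨d, hd, rfl⟩ : ∃ d, 0 < d ∧ j = i + d := ⟨j - i, by omega, by omega⟩
    have h1 : ∀ m : ℕ, x ^ i = x ^ (i + m * d) := by
      intro m
      induction m with
      | zero => simp
      | succ m ih =>
        have : x ^ (i + (m + 1) * d) = x ^ (i + m * d) * x ^ d := by
          rw [← pow_add]; congr 1; ring
        rw [this, ← ih, ← pow_add, ← hx]
    -- take the idempotent `x ^ (k d)` with `k d ≥ i`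
    set N := (i + 1) * d with hN
    have hNi : i ≤ N := by rw [hN]; nlinarith
    have hidem : x ^ N * x ^ N = x ^ N := by
      have h2 : x ^ N = x ^ (i + (i + 1) * d) * x ^ (N - i) := by
        rw [← h1, ← pow_add]; congr 1; omega
      conv_rhs => rw [h2]
      rw [← pow_add, ← pow_add]
      congr 1
      omega
    rcases hid _ hidem with h0 | h0
    · exact Or.inr ⟨N, h0⟩
    · left
      have hNpos : N ≠ 0 := by
        rw [hN]; positivity
      exact (isUnit_pow_iff hNpos).1 (by rw [h0]; exact isUnit_one)
  -- the Artin-Schreier map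
  let φ : A →+ A :=
    { toFun := fun n => n ^ p - n
      map_zero' := by simp [hp.ne_zero]
      map_add' := by intro x y; rw [add_pow_char]; ring }
  have hφ : ∀ n, φ n = n ^ p - n := fun n => rfl
  -- the kernel has `p` elements
  have hker : ∀ n : A, n ^ p - n = 0 → ∃ c : ZMod p, n = (ZMod.castHom (dvd_refl p) A) c := by
    intro n hn
    by_contra hcon
    push Not at hcon
    -- all `n - c` are units
    have hunit : ∀ c : ZMod p, IsUnit (n - (ZMod.castHom (dvd_refl p) A) c) := by
      intro c
      rcases hun (n - (ZMod.castHom (dvd_refl p) A) c) with h | ⟨k, hk⟩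
      · exact h
      · exfalso
        set y := n - (ZMod.castHom (dvd_refl p) A) c with hy
        have hyp : y ^ p = y := by
          rw [hy, sub_pow_char, ← map_pow, ZMod.pow_card]
          linear_combination hn
        have hyk : ∀ m : ℕ, y ^ (p ^ m) = y := by
          intro m
          induction m with
          | zero => simp
          | succ m ih => rw [pow_succ, pow_mul, ih, hyp]
        have : y = 0 := by
          rw [← hyk k]
          have hle : k ≤ p ^ k := (Nat.lt_pow_self hp.one_lt).le
          rw [← Nat.sub_add_cancel hle, pow_add, hk, mul_zero]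
        exact hcon c (by rw [hy] at this; linear_combination this)
    -- the product of all `n - c` is `n ^ p - n`
    have hprod : ∏ c : ZMod p, (n - (ZMod.castHom (dvd_refl p) A) c) = n ^ p - n := by
      have h1 : (X ^ p - X : (ZMod p)[X]) = ∏ c : ZMod p, (X - C c) := by
        have hmonic : (X ^ p - X : (ZMod p)[X]).Monic := by
          apply Polynomial.monic_X_pow_sub
          rw [degree_X]
          exact_mod_cast hp.one_lt
        have hroots : (X ^ p - X : (ZMod p)[X]).roots = Finset.univ.val := by
          have := FiniteField.roots_X_pow_card_sub_X (ZMod p)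
          rwa [ZMod.card] at this
        have hcard : Multiset.card (X ^ p - X : (ZMod p)[X]).roots =
            (X ^ p - X : (ZMod p)[X]).natDegree := by
          rw [hroots, FiniteField.X_pow_card_sub_X_natDegree_eq (ZMod p) hp.one_lt]
          simp [ZMod.card]
        have := Polynomial.prod_multiset_X_sub_C_of_monic_of_roots_card_eq hmonic hcard
        rw [hroots] at this
        rw [← this]
        rfl
      have h2 := congrArg (Polynomial.eval₂ (ZMod.castHom (dvd_refl p) A) n) h1
      rw [Polynomial.eval₂_finsetProd] at h2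
      simp only [eval₂_sub, eval₂_pow, eval₂_X, eval₂_C] at h2
      exact h2.symm
    have : IsUnit (0 : A) := by
      rw [← hn, ← hprod]
      rw [IsUnit.prod_univ_iff]
      exact hunit
    exact not_isUnit_zero this
  have hcard : Nat.card φ.ker = p := by
    have hinj : Function.Injective (ZMod.castHom (dvd_refl p) A) := ZMod.castHom_injective A
    let f : ZMod p → φ.ker := fun c => ⟨(ZMod.castHom (dvd_refl p) A) c, by
      rw [AddMonoidHom.mem_ker, hφ, ← map_pow, ZMod.pow_card, sub_self]⟩
    have hf : Function.Bijective f := by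
      constructor
      · intro x y hxy
        exact hinj (congrArg Subtype.val hxy)
      · rintro ⟨n, hn⟩
        obtain ⟨c, hc⟩ := hker n (by rw [AddMonoidHom.mem_ker, hφ] at hn; exact hn)
        exact ⟨c, Subtype.ext hc.symm⟩
    rw [← Nat.card_eq_of_bijective f hf, Nat.card_zmod]
  have hindex : Nat.card (A ⧸ φ.range) = p := by
    have h1 : Nat.card φ.ker * φ.ker.index = Nat.card A := φ.ker.card_mul_index
    rw [AddSubgroup.index_ker] at h1
    have h2 : Nat.card φ.range * φ.range.index = Nat.card A := φ.range.card_mul_index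
    have h3 : Nat.card φ.range ≠ 0 := Nat.card_pos.ne'
    have h4 : φ.range.index = Nat.card φ.ker := by
      apply Nat.eq_of_mul_eq_mul_left (Nat.pos_of_ne_zero h3)
      rw [h2, ← h1, mul_comm]
    rw [← hcard, ← h4]
    rfl
  by_cases hb : b ∈ φ.range
  · obtain ⟨n, hn⟩ := hb
    exact ⟨w * n, pmap_root_two p a b w n (by rw [← hφ]; exact hn)⟩
  · have hb' : (QuotientAddGroup.mk b : A ⧸ φ.range) ≠ 0 := by
      rwa [Ne, QuotientAddGroup.eq_zero_iff]
    obtain ⟨k, hk⟩ : (QuotientAddGroup.mk a : A ⧸ φ.range) ∈
        AddSubmonoid.multiples (QuotientAddGroup.mk b : A ⧸ φ.range) :=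
      mem_multiples_of_prime_card hindex hb'
    -- `a - k b` is in the range; replace `-k` by a natural number
    have hmem : a - k • b ∈ φ.range := by
      rw [← QuotientAddGroup.eq_zero_iff]
      simp only [QuotientAddGroup.mk_sub, QuotientAddGroup.mk_nsmul]
      rw [sub_eq_zero]
      exact hk.symm
    obtain ⟨n, hn⟩ := hmem
    refine ⟨n, pmap_root_one p a b w n (k * (p - 1)) ?_⟩
    rw [← hφ, hn]
    have hp0 : ((p : ℕ) : A) = 0 := CharP.cast_eq_zero A p
    have h1 : ((p - 1 : ℕ) : A) = -1 := by
      rw [Nat.cast_sub hp.one_lt.le, hp0]; simp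
    push_cast
    rw [h1, nsmul_eq_mul]
    ring

/-- In every finite commutative ring of characteristic `p`, the polynomial has a root. -/
theorem exists_root_finite (p : ℕ) [Fact p.Prime] (m : ℕ) :
    ∀ (A : Type u) [CommRing A] [Finite A], ((p : ℕ) : A) = 0 → Nat.card A ≤ m →
      ∀ a b w : A, ∃ n : A, pmap p a b w n = 0 := by
  have hp := (Fact.out : p.Prime)
  induction m with
  | zero =>
    intro A _ _ _ hcard
    exfalso
    have : 0 < Nat.card A := Nat.card_pos
    omega
  | succ m ih =>
    intro A _ _ hpA hcard a b w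
    rcases subsingleton_or_nontrivial A with hs | hs
    · exact ⟨0, Subsingleton.elim _ _⟩
    have : CharP A p := by
      obtain ⟨q, hq⟩ := CharP.exists A
      have hqp : q ∣ p := (CharP.cast_eq_zero_iff A q p).1 hpA
      rcases (Nat.dvd_prime hp).1 hqp with h1 | h1
      · exfalso
        rw [h1] at hq
        exact CharP.char_ne_one A 1 rfl
      · rwa [h1] at hq
    by_cases hid : ∀ e : A, e * e = e → e = 0 ∨ e = 1
    · exact exists_root_connected p hid a b w
    · push Not at hid
      obtain ⟨e, hee, he0, he1⟩ := hid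
      have he1' : (1 - e) ≠ 0 := fun h => he1 (by linear_combination -h)
      have hee' : (1 - e) * (1 - e) = 1 - e := by linear_combination hee
      have hlt1 := card_quot_lt he0
      have hlt2 := card_quot_lt he1'
      have hfin1 : Finite (A ⧸ (Ideal.span {e} : Ideal A)) :=
        Finite.of_surjective _ Ideal.Quotient.mk_surjective
      have hfin2 : Finite (A ⧸ (Ideal.span {1 - e} : Ideal A)) :=
        Finite.of_surjective _ Ideal.Quotient.mk_surjective
      obtain ⟨n1, hn1⟩ := ih (A ⧸ (Ideal.span {e} : Ideal A))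
        (by rw [← map_natCast (Ideal.Quotient.mk (Ideal.span {e})), hpA, map_zero]) (by omega)
        (Ideal.Quotient.mk _ a) (Ideal.Quotient.mk _ b) (Ideal.Quotient.mk _ w)
      obtain ⟨n2, hn2⟩ := ih (A ⧸ (Ideal.span {1 - e} : Ideal A))
        (by rw [← map_natCast (Ideal.Quotient.mk (Ideal.span {1 - e})), hpA, map_zero]) (by omega)
        (Ideal.Quotient.mk _ a) (Ideal.Quotient.mk _ b) (Ideal.Quotient.mk _ w)
      obtain ⟨n1, rfl⟩ := Ideal.Quotient.mk_surjective n1
      obtain ⟨n2, rfl⟩ := Ideal.Quotient.mk_surjective n2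
      set n := (1 - e) * n1 + e * n2 with hn
      have h1 : Ideal.Quotient.mk (Ideal.span {e}) n = Ideal.Quotient.mk (Ideal.span {e}) n1 := by
        rw [Ideal.Quotient.eq, Ideal.mem_span_singleton]
        exact ⟨n2 - n1, by rw [hn]; ring⟩
      have h2 : Ideal.Quotient.mk (Ideal.span {1 - e}) n =
          Ideal.Quotient.mk (Ideal.span {1 - e}) n2 := by
        rw [Ideal.Quotient.eq, Ideal.mem_span_singleton]
        exact ⟨n1 - n2, by rw [hn]; ring⟩
      refine ⟨n, ?_⟩
      have h3 : pmap p a b w n ∈ Ideal.span {e} := by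
        rw [← Ideal.Quotient.eq_zero_iff_mem, map_pmap, h1, hn1]
      have h4 : pmap p a b w n ∈ Ideal.span {1 - e} := by
        rw [← Ideal.Quotient.eq_zero_iff_mem, map_pmap, h2, hn2]
      rw [Ideal.mem_span_singleton] at h3 h4
      obtain ⟨y, hy⟩ := h3
      obtain ⟨z, hz⟩ := h4
      have h5 : e * pmap p a b w n = pmap p a b w n := by
        rw [hy, ← mul_assoc, hee]
      rw [← h5, hz, ← mul_assoc]
      have : e * (1 - e) = 0 := by linear_combination -hee
      rw [this, zero_mul]

end Pool.Agent.Lib.MP_045218_nt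
end

section

set_option autoImplicit false

open Polynomial

namespace Pool.Agent.Lib.MP_045218_nt

section LinInd

variable {F K : Type*} [Field F] [Field K] [Algebra F K] (p : ℕ) [Fact p.Prime] [CharP F p]
  [CharP K p]

theorem natCast_pow_char {R : Type*} [CommRing R] [CharP R p] (k : ℕ) : (k : R) ^ p = (k : R) := by
  have := map_natCast (frobenius R p) k
  rwa [frobenius_def] at this

/-- Artin-Schreier elements with independent constants are linearly independent. -/
theorem artinSchreier_linInd {ι : Type*} [Fintype ι] (s : ι → F) (θ : ι → K)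
    (hθ : ∀ i, θ i ^ p - θ i = algebraMap F K (s i))
    (hs : ∀ (z : ι → ℕ) (g : F), g ^ p - g = ∑ i, (z i : F) * s i → ∀ i, (z i : F) = 0) :
    LinearIndependent F θ := by
  classical
  have key : ∀ (m : ℕ) (c : ι → F), (Finset.univ.filter (fun i => c i ≠ 0)).card ≤ m →
      (∃ c0 : F, ∑ i, c i • θ i = algebraMap F K c0) → ∀ i, c i = 0 := by
    intro m
    induction m with
    | zero =>
      intro c hc _ i
      by_contra h
      have : i ∈ Finset.univ.filter (fun i => c i ≠ 0) := by simp [h]
      have h2 : (Finset.univ.filter (fun i => c i ≠ 0)) = ∅ := by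
        rw [← Finset.card_eq_zero]; omega
      rw [h2] at this
      simp at this
    | succ m ih =>
      intro c hc hex
      obtain ⟨c0, hc0⟩ := hex
      by_contra hcon
      push Not at hcon
      obtain ⟨j, hj⟩ := hcon
      -- normalise
      set d : ι → F := fun i => (c j)⁻¹ * c i with hd
      have hdj : d j = 1 := by simp [hd, hj]
      have hd0 : ∑ i, d i • θ i = algebraMap F K ((c j)⁻¹ * c0) := by
        rw [map_mul, ← hc0, Finset.mul_sum]
        apply Finset.sum_congr rfl
        intro i _
        simp only [hd, Algebra.smul_def, map_mul]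
        ring
      set d0 := (c j)⁻¹ * c0
      set e : ι → F := fun i => d i ^ p - d i with he
      have hsupp : (Finset.univ.filter (fun i => e i ≠ 0)).card ≤ m := by
        have hsub : (Finset.univ.filter (fun i => e i ≠ 0)) ⊂
            (Finset.univ.filter (fun i => c i ≠ 0)) := by
          rw [Finset.ssubset_iff_of_subset]
          · refine ⟨j, by simp [hj], ?_⟩
            simp [he, hdj]
          · intro i hi
            simp only [Finset.mem_filter, Finset.mem_univ, true_and] at hi ⊢
            intro hci
            apply hi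
            simp [he, hd, hci, (Fact.out : p.Prime).ne_zero]
        have := Finset.card_lt_card hsub
        omega
      have hθp : ∀ i, θ i ^ p = θ i + algebraMap F K (s i) := fun i => by rw [← hθ i]; ring
      have hfrob : (∑ i, d i • θ i) ^ p = ∑ i, (d i ^ p) • (θ i + algebraMap F K (s i)) := by
        rw [sum_pow_char]
        apply Finset.sum_congr rfl
        intro i _
        rw [← hθp, Algebra.smul_def, Algebra.smul_def, mul_pow, map_pow]
      have hsum : ∑ i, e i • θ i = algebraMap F K (d0 ^ p - d0 - ∑ i, d i ^ p * s i) := by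
        have h1 : ∑ i, e i • θ i = (∑ i, (d i ^ p) • (θ i + algebraMap F K (s i)))
            - (∑ i, d i • θ i) - ∑ i, algebraMap F K (d i ^ p * s i) := by
          rw [← Finset.sum_sub_distrib, ← Finset.sum_sub_distrib]
          apply Finset.sum_congr rfl
          intro i _
          simp only [he, Algebra.smul_def, map_sub, map_mul, map_pow]
          ring
        rw [h1, ← hfrob, hd0]
        simp only [map_sub, map_sum, map_pow]
      have he0 := ih e hsupp ⟨_, hsum⟩
      have hdn : ∀ i, ∃ k : ℕ, d i = (k : F) := by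
        intro i
        apply exists_nat_of_pow_eq p
        have := he0 i
        simp only [he] at this
        linear_combination this
      choose z hz using hdn
      have h2 : d0 ^ p - d0 = ∑ i, (z i : F) * s i := by
        have h3 : algebraMap F K (d0 ^ p - d0 - ∑ i, d i ^ p * s i) = 0 := by
          rw [← hsum]
          apply Finset.sum_eq_zero
          intro i _
          rw [he0 i, zero_smul]
        have h4 := (map_eq_zero_iff _ (algebraMap F K).injective).1 h3
        have h5 : ∑ i, d i ^ p * s i = ∑ i, (z i : F) * s i := by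
          apply Finset.sum_congr rfl
          intro i _
          rw [hz i, natCast_pow_char]
        rw [h5] at h4
        linear_combination h4
      have h6 := hs z d0 h2 j
      rw [← hz j, hdj] at h6
      exact one_ne_zero h6
  rw [Fintype.linearIndependent_iff]
  intro g hg
  exact key _ g le_rfl ⟨0, by rw [hg, map_zero]⟩

end LinInd

section Poly

variable {Fq : Type*} [Field Fq] (p : ℕ) [Fact p.Prime] [CharP Fq p]

/-- A polynomial supported on exponents `≡ 1 mod p` which is of the form `g ^ p - g` for a rational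
function `g` vanishes. -/
theorem poly_eq_zero_of_artinSchreier (Q : Fq[X]) (hQ : ∀ j, Q.coeff j ≠ 0 → j % p = 1)
    (g : RatFunc Fq) (hg : g ^ p - g = algebraMap Fq[X] (RatFunc Fq) Q) : Q = 0 := by
  have hp := (Fact.out : p.Prime)
  -- `g` is a polynomial
  have hint : IsIntegral Fq[X] g := by
    refine ⟨X ^ p - (X + C Q), ?_, ?_⟩
    · apply monic_X_pow_sub
      rw [degree_X_add_C]
      exact_mod_cast hp.one_lt
    · simp only [eval₂_sub, eval₂_pow, eval₂_X, eval₂_add, eval₂_C]
      linear_combination hg
  obtain ⟨G, rfl⟩ := IsIntegrallyClosed.isIntegral_iff.1 hint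
  have hG : G ^ p - G = Q := by
    apply IsFractionRing.injective Fq[X] (RatFunc Fq)
    rw [← hg]; simp
  by_contra hQ0
  have hdeg : Q.natDegree % p = 1 := hQ _ (by rwa [coeff_natDegree, leadingCoeff_ne_zero])
  by_cases hG0 : G.natDegree = 0
  · have : Q.natDegree = 0 := by
      rw [← hG]
      apply Nat.eq_zero_of_le_zero
      refine (natDegree_sub_le _ _).trans ?_
      simp [hG0]
    rw [this] at hdeg
    simp at hdeg
  · have : Q.natDegree = p * G.natDegree := by
      rw [← hG, natDegree_sub_eq_left_of_natDegree_lt, natDegree_pow]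
      rw [natDegree_pow]
      have := hp.one_lt
      nlinarith [Nat.pos_of_ne_zero hG0]
    rw [this] at hdeg
    simp at hdeg

variable {K : Type*} [Field K] [CharP K p] [Algebra (RatFunc Fq) K] [Algebra Fq[X] K]
  [IsScalarTower Fq[X] (RatFunc Fq) K] [FiniteDimensional (RatFunc Fq) K]

/-- Over every finite extension there are two independent polynomials. -/
theorem exists_indep : ∃ a b : Fq[X], Indep p (algebraMap Fq[X] K a) (algebraMap Fq[X] K b) := by
  classical
  have hp := (Fact.out : p.Prime)
  by_contra hcon
  push Not at hcon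
  set d := Module.finrank (RatFunc Fq) K with hd
  have hF : CharP (RatFunc Fq) p := by
    exact charP_of_injective_algebraMap (IsFractionRing.injective Fq[X] (RatFunc Fq)) p
  -- the choice of the non-trivial relations
  have h1 : ∀ i : Fin (d + 1), ∃ (x y : ℕ) (n : K),
      n ^ p - n = (x : K) * (algebraMap Fq[X] K (X ^ (p * (2 * i.1) + 1))) +
        (y : K) * (algebraMap Fq[X] K (X ^ (p * (2 * i.1 + 1) + 1))) ∧
        ¬ ((x : K) = 0 ∧ (y : K) = 0) := by
    intro i
    have := hcon (X ^ (p * (2 * i.1) + 1)) (X ^ (p * (2 * i.1 + 1) + 1))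
    unfold Indep at this
    push Not at this
    obtain ⟨x, y, n, h, h'⟩ := this
    exact ⟨x, y, n, h, fun hh => h' hh.1 hh.2⟩
  choose x y n hn hxy using h1
  let sp : Fin (d + 1) → Fq[X] := fun i =>
    C (x i : Fq) * X ^ (p * (2 * i.1) + 1) + C (y i : Fq) * X ^ (p * (2 * i.1 + 1) + 1)
  have hli : LinearIndependent (RatFunc Fq) n := by
    apply artinSchreier_linInd p (fun i => algebraMap Fq[X] (RatFunc Fq) (sp i)) n
    · intro i
      rw [hn i, ← IsScalarTower.algebraMap_apply]
      simp [sp]
    · intro z g hg i
      set Q : Fq[X] := ∑ i, C (z i : Fq) * sp i with hQ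
      have hgQ : g ^ p - g = algebraMap Fq[X] (RatFunc Fq) Q := by
        rw [hg, hQ, map_sum]
        apply Finset.sum_congr rfl
        intro i _
        simp
      have hcoeff : ∀ j, Q.coeff j = ∑ i : Fin (d + 1), ((z i : Fq) * (x i : Fq) *
          (if j = p * (2 * i.1) + 1 then 1 else 0) +
          (z i : Fq) * (y i : Fq) * (if j = p * (2 * i.1 + 1) + 1 then 1 else 0)) := by
        intro j
        rw [hQ, finset_sum_coeff]
        apply Finset.sum_congr rfl
        intro i _
        simp only [sp, coeff_C_mul, coeff_add, coeff_X_pow]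
        ring
      have hQ0 : Q = 0 := by
        apply poly_eq_zero_of_artinSchreier p Q _ g hgQ
        intro j hj
        by_contra hj1
        apply hj
        rw [hcoeff]
        apply Finset.sum_eq_zero
        intro i _
        have h1 : j ≠ p * (2 * i.1) + 1 := by
          rintro rfl
          apply hj1
          rw [Nat.mul_add_mod]
          exact Nat.mod_eq_of_lt hp.one_lt
        have h2 : j ≠ p * (2 * i.1 + 1) + 1 := by
          rintro rfl
          apply hj1
          rw [Nat.mul_add_mod]
          exact Nat.mod_eq_of_lt hp.one_lt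
        rw [if_neg h1, if_neg h2]
        ring
      have hx : (z i : Fq) * (x i : Fq) = 0 := by
        have := hcoeff (p * (2 * i.1) + 1)
        rw [hQ0, coeff_zero, Finset.sum_eq_single i] at this
        · rw [if_pos rfl, if_neg] at this
          · linear_combination -this
          · intro h
            have := Nat.eq_of_mul_eq_mul_left hp.pos (Nat.succ.inj h)
            omega
        · intro k _ hk
          rw [if_neg, if_neg]
          · ring
          · intro h
            have := Nat.eq_of_mul_eq_mul_left hp.pos (Nat.succ.inj h)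
            omega
          · intro h
            have := Nat.eq_of_mul_eq_mul_left hp.pos (Nat.succ.inj h)
            apply hk
            apply Fin.ext
            omega
        · simp
      have hy : (z i : Fq) * (y i : Fq) = 0 := by
        have := hcoeff (p * (2 * i.1 + 1) + 1)
        rw [hQ0, coeff_zero, Finset.sum_eq_single i] at this
        · rw [if_pos rfl, if_neg] at this
          · linear_combination -this
          · intro h
            have := Nat.eq_of_mul_eq_mul_left hp.pos (Nat.succ.inj h)
            omega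
        · intro k _ hk
          rw [if_neg, if_neg]
          · ring
          · intro h
            have := Nat.eq_of_mul_eq_mul_left hp.pos (Nat.succ.inj h)
            apply hk
            apply Fin.ext
            omega
          · intro h
            have := Nat.eq_of_mul_eq_mul_left hp.pos (Nat.succ.inj h)
            omega
        · simp
      have hxy' : ¬ ((x i : Fq) = 0 ∧ (y i : Fq) = 0) := by
        rintro ⟨h1, h2⟩
        apply hxy i
        rw [CharP.cast_eq_zero_iff Fq p] at h1 h2
        rw [CharP.cast_eq_zero_iff K p, CharP.cast_eq_zero_iff K p]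
        exact ⟨h1, h2⟩
      have hz : (z i : Fq) = 0 := by
        by_contra hz
        apply hxy'
        exact ⟨(mul_eq_zero.1 hx).resolve_left hz, (mul_eq_zero.1 hy).resolve_left hz⟩
      rw [CharP.cast_eq_zero_iff Fq p] at hz
      rwa [CharP.cast_eq_zero_iff (RatFunc Fq) p]
  have := hli.fintype_card_le_finrank
  rw [Fintype.card_fin] at this
  omega

end Poly

end Pool.Agent.Lib.MP_045218_nt
end

section

set_option autoImplicit false

open Polynomial Filter Topology

namespace Pool.Agent.Lib.MP_045218_nt

section Degree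

variable {R : Type*} [CommRing R] [Nontrivial R] (p : ℕ) [Fact p.Prime]

theorem lin_monic (c : R) (x : R[X]) (hx : x.Monic) (hd : 0 < x.natDegree) :
    (lin p (C c) x).Monic ∧ 0 < (lin p (C c) x).natDegree := by
  have hp := (Fact.out : p.Prime)
  have h1 : (x ^ p).Monic := hx.pow p
  have h2 : (x ^ p).natDegree = p * x.natDegree := hx.natDegree_pow p
  have h3 : ((C c) ^ (p - 1) * x).natDegree < (x ^ p).natDegree := by
    rw [← C_pow, h2]
    refine lt_of_le_of_lt (natDegree_C_mul_le _ _) ?_
    have := hp.one_lt
    nlinarith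
  have h4 : ((C c) ^ (p - 1) * x).degree < (x ^ p).degree := degree_lt_degree h3
  refine ⟨h1.sub_of_left h4, ?_⟩
  rw [lin, natDegree_sub_eq_left_of_natDegree_lt h3, h2]
  exact Nat.mul_pos hp.pos hd

/-- The polynomial whose evaluation is `pmap p a b w`. -/
noncomputable def poly (a b w : R) : R[X] := pmap p (C a) (C b) (C w) X

theorem eval_poly (a b w n : R) : (poly p a b w).eval n = pmap p a b w n := by
  have := map_pmap p (evalRingHom n) (C a) (C b) (C w) X
  simpa [poly] using this

theorem poly_monic (a b w : R) : (poly p a b w).Monic ∧ 0 < (poly p a b w).natDegree := by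
  unfold poly pmap hval
  have e0 : ((C w : R[X]) ^ p - C w) = C (w ^ p - w) := by simp
  have hX : (lin p (C 1) (X : R[X])).Monic ∧ 0 < (lin p (C 1) (X : R[X])).natDegree :=
    lin_monic p 1 X monic_X (by rw [natDegree_X]; norm_num)
  have hX' : lin p (C 1) (X : R[X]) = X ^ p - X := by simp [lin]
  rw [hX'] at hX
  set w1 := w ^ p - w with hw1
  have e1 : lin p (C w1) (C b) = C (lin p w1 b) := by rw [map_lin]
  have e2 : lin p (C w1) ((C w : R[X]) ^ p * C b) = C (lin p w1 (w ^ p * b)) := by
    rw [map_lin]; simp
  have e3 : lin p (C w1) ((C a : R[X]) - (C w) ^ p * C b) = C (lin p w1 (a - w ^ p * b)) := by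
    rw [map_lin]; simp
  simp only [e0, e1, e2, e3]
  set b1 := lin p w1 b
  have e4 : (C (lin p w1 (a - w ^ p * b)) : R[X]) - (C w1) ^ p * C b =
      C (lin p w1 (a - w ^ p * b) - w1 ^ p * b) := by simp
  have e5 : (C (lin p w1 (w ^ p * b)) : R[X]) + (C w1) ^ p * C b =
      C (lin p w1 (w ^ p * b) + w1 ^ p * b) := by simp
  rw [e4, e5]
  set g := lin p w1 (a - w ^ p * b) - w1 ^ p * b
  set h := lin p w1 (w ^ p * b) + w1 ^ p * b
  have e6 : lin p (C b1) (C g) = C (lin p b1 g) := (map_lin p C b1 g).symm
  rw [e6]
  have s1 := lin_monic p w1 _ hX.1 hX.2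
  have s2 : (lin p (C w1) (X ^ p - X : R[X]) - C h).Monic ∧
      0 < (lin p (C w1) (X ^ p - X : R[X]) - C h).natDegree := by
    refine ⟨?_, ?_⟩
    · apply s1.1.sub_of_left
      refine lt_of_le_of_lt degree_C_le ?_
      rw [← natDegree_pos_iff_degree_pos]
      exact s1.2
    · rw [natDegree_sub_C]
      exact s1.2
  have s3 := lin_monic p b1 _ s2.1 s2.2
  exact lin_monic p (lin p b1 g) _ s3.1 s3.2

end Degree

section Count

theorem countable_polynomial (Fq : Type*) [Field Fq] [Finite Fq] : Countable Fq[X] := by
  rw [← Cardinal.mk_le_aleph0_iff]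
  refine Polynomial.cardinalMk_le_max.trans ?_
  rw [max_le_iff]
  exact ⟨Cardinal.mk_le_aleph0_iff.2 inferInstance, le_rfl⟩

theorem countable_ratFunc (Fq : Type*) [Field Fq] [Finite Fq] : Countable (RatFunc Fq) := by
  have := countable_polynomial Fq
  have hs : Function.Surjective (fun q : Fq[X] × Fq[X] =>
      algebraMap Fq[X] (RatFunc Fq) q.1 / algebraMap Fq[X] (RatFunc Fq) q.2) := by
    intro z
    obtain ⟨x, y, _, h⟩ := IsFractionRing.div_surjective Fq[X] z
    exact ⟨(x, y), h⟩
  exact hs.countable

theorem finite_quotient (Fq : Type*) [Field Fq] [Finite Fq] (J : Ideal Fq[X]) (hJ : J ≠ ⊥) :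
    Finite (Fq[X] ⧸ J) := by
  obtain ⟨f, hfJ, hf⟩ := Submodule.exists_mem_ne_zero_of_ne_bot hJ
  have h1 : Module.Finite Fq (AdjoinRoot f) := (AdjoinRoot.powerBasis hf).finite
  have h2 : Finite (AdjoinRoot f) := Module.finite_of_finite Fq
  have h3 : Finite (Fq[X] ⧸ Ideal.span {f}) := h2
  have hle : Ideal.span {f} ≤ J := by
    rw [Ideal.span_singleton_le_iff_mem]; exact hfJ
  exact Finite.of_surjective (Ideal.Quotient.factor hle) (Ideal.Quotient.factor_surjective hle)

end Count

section Main

variable (Fq K : Type*) [Field Fq] [Finite Fq] [Field K] [Algebra Fq[X] K]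
  [Algebra (RatFunc Fq) K] [IsScalarTower Fq[X] (RatFunc Fq) K] [FunctionField Fq K]

/-- Over the ring of integers of every global function field, for every `k ≥ 1`, there are `k`
polynomials satisfying (i) but not (ii). -/
theorem counterexample (k : ℕ) (hk : 1 ≤ k) :
    ∃ P : Fin k → (FunctionField.ringOfIntegers Fq K)[X],
      Function.Injective P ∧ (∀ i, 0 < (P i).natDegree) ∧
        JointlyIntersective P ∧ ¬ PolySzemeredi P := by
  classical
  obtain ⟨p, hpchar⟩ := CharP.exists Fq
  have hp : p.Prime := CharP.char_is_prime Fq p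
  have hpf : Fact p.Prime := ⟨hp⟩
  set O := FunctionField.ringOfIntegers Fq K with hO
  have hinj : Function.Injective (algebraMap Fq[X] O) :=
    FunctionField.ringOfIntegers.algebraMap_injective Fq K
  have hcharO : CharP O p := charP_of_injective_algebraMap hinj p
  have hcharK : CharP K p :=
    charP_of_injective_algebraMap (FunctionField.algebraMap_injective Fq K) p
  obtain ⟨a, b, hab⟩ := exists_indep (Fq := Fq) (K := K) p
  -- the element `w = X`
  have hw : (X : Fq[X]) ^ p - X ≠ 0 := by
    intro h
    have h1 := congrArg natDegree h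
    rw [FiniteField.X_pow_card_sub_X_natDegree_eq Fq hp.one_lt, natDegree_zero] at h1
    exact hp.ne_zero h1
  set a' := algebraMap Fq[X] O a with ha'
  set b' := algebraMap Fq[X] O b with hb'
  set w' := algebraMap Fq[X] O X with hw'
  set P0 : O[X] := poly p a' b' w' with hP0
  have hP0m := poly_monic p a' b' w'
  -- no roots
  have hroot : ∀ n : O, pmap p a' b' w' n ≠ 0 := by
    intro n hn
    have h1 := congrArg (algebraMap O K) hn
    rw [map_pmap, map_zero] at h1
    refine pmap_ne_zero p (a := algebraMap O K a') (b := algebraMap O K b')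
      (w := algebraMap O K w') ?_ ?_ (algebraMap O K n) h1
    · rw [ha', hb', ← IsScalarTower.algebraMap_apply, ← IsScalarTower.algebraMap_apply]
      exact hab
    · rw [hw', ← IsScalarTower.algebraMap_apply, ← map_pow, ← map_sub]
      intro h
      apply hw
      apply FunctionField.algebraMap_injective Fq K
      rw [h, map_zero]
  refine ⟨fun i => P0 * X ^ (i : ℕ), ?_, ?_, ?_, ?_⟩
  · intro i j hij
    have h1 := congrArg natDegree hij
    simp only at h1
    rw [hP0m.1.natDegree_mul (monic_X_pow _), hP0m.1.natDegree_mul (monic_X_pow _),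
      natDegree_X_pow, natDegree_X_pow] at h1
    apply Fin.ext
    omega
  · intro i
    rw [hP0m.1.natDegree_mul (monic_X_pow _)]
    exact Nat.add_pos_left hP0m.2 _
  · -- condition (i)
    intro I hI
    have hint : Algebra.IsIntegral Fq[X] O := IsIntegralClosure.isIntegral_algebra Fq[X] K
    set J := Ideal.comap (algebraMap Fq[X] O) I with hJ
    have hJ0 : J ≠ ⊥ := fun h => hI (Ideal.eq_bot_of_comap_eq_bot h)
    have hfin := finite_quotient Fq J hJ0
    obtain ⟨n, hn⟩ := exists_root_finite p (Nat.card (Fq[X] ⧸ J)) (Fq[X] ⧸ J)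
      (by rw [← map_natCast (Ideal.Quotient.mk J), CharP.cast_eq_zero, map_zero]) le_rfl
      (Ideal.Quotient.mk J a) (Ideal.Quotient.mk J b) (Ideal.Quotient.mk J X)
    obtain ⟨n, rfl⟩ := Ideal.Quotient.mk_surjective n
    rw [← map_pmap, Ideal.Quotient.eq_zero_iff_mem, hJ, Ideal.mem_comap, map_pmap] at hn
    refine ⟨algebraMap Fq[X] O n, fun i => ?_⟩
    rw [eval_mul, eval_poly]
    exact I.mul_mem_right _ hn
  · -- condition (ii) fails
    intro hS
    let _ : Module (ZMod p) O := (ZMod.algebra O p).toModule
    have hcount : Countable K := by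
      have := countable_ratFunc Fq
      exact (Module.finBasis (RatFunc Fq) K).equivFun.injective.countable
    have hcountO : Countable O := Subtype.countable
    let T : O →+ O :=
      { toFun := tmap p a' b' w'
        map_zero' := tmap_zero p a' b' w'
        map_add' := tmap_add p a' b' w' }
    let T' : O →ₗ[ZMod p] O := T.toZModLinearMap p
    have hT' : ∀ x, T' x = tmap p a' b' w' x := fun x => rfl
    have hnot : pmap p a' b' w' 0 ∉ LinearMap.range T' := by
      rintro ⟨m, hm⟩
      rw [hT'] at hm
      apply hroot (-m)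
      have h1 := pmap_sub p a' b' w' (-m) 0
      rw [sub_zero] at h1
      have h2 : tmap p a' b' w' (-m) = - tmap p a' b' w' m := T.map_neg m
      rw [h2, hm] at h1
      linear_combination h1
    obtain ⟨f, hf1, hf2⟩ := Submodule.exists_le_ker_of_notMem hnot
    obtain ⟨x, n, hx, hxn⟩ := hS {x : O | f x = 0} (upperBanachDensity_ker_pos p f)
    have h0 := hxn ⟨0, hk⟩
    simp only [pow_zero, mul_one, hP0, eval_poly] at h0
    have h1 : f x = 0 := hx
    have h2 : f (x + pmap p a' b' w' n) = 0 := h0
    rw [map_add, h1, zero_add] at h2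
    have h3 : pmap p a' b' w' n = T' n + pmap p a' b' w' 0 := by
      rw [hT']
      have := pmap_sub p a' b' w' n 0
      rw [sub_zero] at this
      rw [← this]; ring
    have h4 : f (T' n) = 0 := by
      have := hf2 (LinearMap.mem_range_self T' n)
      exact this
    rw [h3, map_add, h4, zero_add] at h2
    exact hf1 h2

end Main

end Pool.Agent.Lib.MP_045218_nt
end
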